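import Pool.Agent.H82.BO.Targets
import Pool.Agent.H10.FLC.CHC

/-!
MP_c62aed_lc, cutting planes for random CNFs, the optimal exponent: row CHD (Chernoff for the side
of `y`).
-/

set_option autoImplicit false

namespace Pool.Agent.H95.BOP

open Finset Pool.Agent.H82.BO
open Pool.Agent.H15.FLC (Half Violates)

section

variable {n l M μ : ℕ}

open Classical in
/-- the exponential weight -/
noncomputable def chd_w (y : Fin n → Bool) (A : Finset (Fin M)) (δ : ℝ) (c : Fin M × Fin μ)
    (d : Half n l) : ℝ :=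
  if c.1 ∈ A ∧ Violates d y then Real.exp (-δ) else 1

theorem chd_w_pos (y : Fin n → Bool) (A : Finset (Fin M)) (δ : ℝ) (c : Fin M × Fin μ)
    (d : Half n l) : 0 < chd_w y A δ c d := by
  unfold chd_w
  split_ifs
  · exact Real.exp_pos _
  · exact one_pos

open Classical in
theorem chd_sum (y : Fin n → Bool) (A : Finset (Fin M)) (δ : ℝ) (c : Fin M × Fin μ) :
    ∑ d : Half n l, chd_w y A δ c d =
      (Fintype.card (Half n l) : ℝ) * (1 - (if c.1 ∈ A then (1 - Real.exp (-δ)) / 2 ^ l else 0)) := by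
  by_cases hc : c.1 ∈ A
  · have h1 : ∀ d : Half n l, chd_w y A δ c d =
        1 - (if Violates d y then (1 - Real.exp (-δ)) else 0) := by
      intro d
      unfold chd_w
      by_cases hv : Violates d y
      · rw [if_pos ⟨hc, hv⟩, if_pos hv]
        ring
      · rw [if_neg fun h => hv h.2, if_neg hv]
        ring
    have h2 := Pool.Agent.H10.FLC.chc_half (k := l) y
    have h3 : (((univ.filter fun d : Half n l => Violates d y).card : ℕ) : ℝ) =
        (Fintype.card (Half n l) : ℝ) / 2 ^ l := by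
      rw [eq_div_iff (by positivity), ← h2]
      push_cast
      ring
    rw [Finset.sum_congr rfl fun d _ => h1 d, Finset.sum_sub_distrib, ← Finset.sum_filter,
      Finset.sum_const, Finset.sum_const, nsmul_eq_mul, nsmul_eq_mul, h3, Finset.card_univ,
      if_pos hc]
    ring
  · have h1 : ∀ d : Half n l, chd_w y A δ c d = 1 := by
      intro d
      unfold chd_w
      rw [if_neg fun h => hc h.1]
    rw [Finset.sum_congr rfl fun d _ => h1 d, Finset.sum_const, nsmul_eq_mul, Finset.card_univ,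
      if_neg hc]
    ring

open Classical in
theorem chd_prod (y : Fin n → Bool) (A : Finset (Fin M)) (δ : ℝ) (D : Fin M × Fin μ → Half n l) :
    ∏ c, chd_w y A δ c (D c) =
      Real.exp (-δ * (Nat.card {c : Fin M × Fin μ // c.1 ∈ A ∧ Violates (D c) y} : ℝ)) := by
  have h1 : ∀ c, chd_w y A δ c (D c) =
      Real.exp (-δ * (if c.1 ∈ A ∧ Violates (D c) y then 1 else 0)) := by
    intro c
    unfold chd_w
    split_ifs
    · rw [mul_one]
    · rw [mul_zero, Real.exp_zero]
  rw [Finset.prod_congr rfl fun c _ => h1 c, ← Real.exp_sum, ← Finset.mul_sum]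
  congr 2
  rw [Nat.card_eq_fintype_card, Fintype.card_subtype, Finset.sum_boole]

theorem chd_N : (Nat.card (Fin M × Fin μ → Half n l) : ℝ) =
    (Fintype.card (Half n l) : ℝ) ^ (Fintype.card (Fin M × Fin μ)) := by
  classical
  rw [Nat.card_eq_fintype_card, Fintype.card_pi, Finset.prod_const, Finset.card_univ]
  push_cast
  rfl

open Classical in
theorem chd_ind (A : Finset (Fin M)) (ρ : ℝ) :
    ∑ c : Fin M × Fin μ, (if c.1 ∈ A then ρ else 0) = ρ * (A.card * μ) := by
  rw [Fintype.sum_prod_type]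
  have h1 : ∀ i : Fin M, ∑ j : Fin μ, (if ((i, j) : Fin M × Fin μ).1 ∈ A then ρ else 0) =
      if i ∈ A then (μ : ℝ) * ρ else 0 := by
    intro i
    by_cases hi : i ∈ A
    · simp [hi]
    · simp [hi]
  rw [Finset.sum_congr rfl fun i _ => h1 i, ← Finset.sum_filter, Finset.sum_const,
    Finset.filter_mem_eq_inter, Finset.univ_inter, nsmul_eq_mul]
  ring

theorem chd_total (y : Fin n → Bool) (A : Finset (Fin M)) (δ : ℝ) :
    ∑ D : Fin M × Fin μ → Half n l,
      Real.exp (-δ * (Nat.card {c : Fin M × Fin μ // c.1 ∈ A ∧ Violates (D c) y} : ℝ)) ≤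
      (Nat.card (Fin M × Fin μ → Half n l) : ℝ) *
        Real.exp (-((1 - Real.exp (-δ)) / 2 ^ l * (A.card * μ))) := by
  classical
  have h1 : ∑ D : Fin M × Fin μ → Half n l,
      Real.exp (-δ * (Nat.card {c : Fin M × Fin μ // c.1 ∈ A ∧ Violates (D c) y} : ℝ)) =
      ∏ c : Fin M × Fin μ, ∑ d : Half n l, chd_w y A δ c d := by
    rw [Finset.prod_univ_sum, Fintype.piFinset_univ]
    exact Finset.sum_congr rfl fun D _ => (chd_prod y A δ D).symm
  have h2 : ∀ c : Fin M × Fin μ, ∑ d : Half n l, chd_w y A δ c d ≤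
      (Fintype.card (Half n l) : ℝ) *
        Real.exp (-(if c.1 ∈ A then (1 - Real.exp (-δ)) / 2 ^ l else 0)) := by
    intro c
    rw [chd_sum]
    refine mul_le_mul_of_nonneg_left ?_ (Nat.cast_nonneg _)
    have h3 := Real.add_one_le_exp (-(if c.1 ∈ A then (1 - Real.exp (-δ)) / 2 ^ l else 0))
    linarith
  rw [h1]
  calc ∏ c : Fin M × Fin μ, ∑ d : Half n l, chd_w y A δ c d
      ≤ ∏ c : Fin M × Fin μ, (Fintype.card (Half n l) : ℝ) *
          Real.exp (-(if c.1 ∈ A then (1 - Real.exp (-δ)) / 2 ^ l else 0)) :=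
        Finset.prod_le_prod (fun c _ => Finset.sum_nonneg fun d _ => (chd_w_pos y A δ c d).le)
          fun c _ => h2 c
    _ = _ := by
        rw [Finset.prod_mul_distrib, Finset.prod_const, Finset.card_univ, ← Real.exp_sum, chd_N,
          Finset.sum_neg_distrib, chd_ind]

end

theorem pf_CHD : T_CHD := by
  classical
  intro ε n t l M μ y A h0 h1 ht hbig
  set δ : ℝ := ε / 2 with hδ
  set m : ℝ := (A.card * μ : ℝ) / 2 ^ l with hm
  set N : ℝ := (Nat.card (Fin M × Fin μ → Half n l) : ℝ) with hN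
  have hN0 : 0 ≤ N := Nat.cast_nonneg _
  have hδ0 : 0 < δ := by positivity
  have hm0 : 0 ≤ m := by positivity
  have hmε : 32 * (t : ℝ) ≤ ε ^ 2 * m := by
    rw [hm, ← mul_div_assoc, le_div_iff₀ (by positivity)]
    linarith
  let Bx : Finset (Fin M × Fin μ → Half n l) := univ.filter fun D =>
    (Nat.card {c : Fin M × Fin μ // c.1 ∈ A ∧ Violates (D c) y} : ℝ) <
      (1 - ε / 2) * (A.card * μ) / 2 ^ l
  have hBx : (Bx.card : ℝ) ≤ N * Real.exp (-4 * t) := by
    have h2 := chd_total (l := l) (μ := μ) y A δ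
    have h3 : (Bx.card : ℝ) * Real.exp (-δ * ((1 - δ) * m)) ≤
        ∑ D : Fin M × Fin μ → Half n l,
          Real.exp (-δ * (Nat.card {c : Fin M × Fin μ // c.1 ∈ A ∧ Violates (D c) y} : ℝ)) := by
      rw [← nsmul_eq_mul]
      refine (Finset.card_nsmul_le_sum Bx (fun D => Real.exp (-δ *
        (Nat.card {c : Fin M × Fin μ // c.1 ∈ A ∧ Violates (D c) y} : ℝ))) _ ?_).trans
        (Finset.sum_le_sum_of_subset_of_nonneg (Finset.subset_univ _)
          fun D _ _ => (Real.exp_pos _).le)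
      intro D hD
      have h4 := (Finset.mem_filter.1 hD).2
      have h5 : (1 - ε / 2) * (A.card * μ) / 2 ^ l = (1 - δ) * m := by
        rw [hm, hδ]
        ring
      rw [h5] at h4
      apply Real.exp_le_exp.2
      nlinarith
    have h5 : (Bx.card : ℝ) ≤ N * Real.exp (-((1 - Real.exp (-δ)) / 2 ^ l * (A.card * μ))) *
        Real.exp (δ * ((1 - δ) * m)) := by
      have h6 : 0 < Real.exp (δ * ((1 - δ) * m)) := Real.exp_pos _
      have h7 : Real.exp (-δ * ((1 - δ) * m)) * Real.exp (δ * ((1 - δ) * m)) = 1 := by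
        rw [← Real.exp_add, neg_mul, neg_add_cancel, Real.exp_zero]
      calc (Bx.card : ℝ) = (Bx.card : ℝ) * Real.exp (-δ * ((1 - δ) * m)) *
            Real.exp (δ * ((1 - δ) * m)) := by rw [mul_assoc, h7, mul_one]
        _ ≤ _ := mul_le_mul_of_nonneg_right (h3.trans h2) h6.le
    refine h5.trans ?_
    rw [mul_assoc, ← Real.exp_add]
    refine mul_le_mul_of_nonneg_left (Real.exp_le_exp.2 ?_) hN0
    have h8 : -((1 - Real.exp (-δ)) / 2 ^ l * (A.card * μ)) + δ * ((1 - δ) * m) =
        (Real.exp (-δ) - 1 + δ - δ ^ 2) * m := by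
      rw [hm]
      ring
    rw [h8]
    have h9 := Pool.Agent.H53.MC.exp_neg_quad hδ0.le
    have h10 : Real.exp (-δ) - 1 + δ - δ ^ 2 ≤ -(δ ^ 2 / 2) := by linarith
    have h12 : (Real.exp (-δ) - 1 + δ - δ ^ 2) * m ≤ -(δ ^ 2 / 2) * m :=
      mul_le_mul_of_nonneg_right h10 hm0
    have h13 : -(δ ^ 2 / 2) * m = -(ε ^ 2 * m) / 8 := by
      rw [hδ]
      ring
    linarith
  have hcard : Nat.card {D : Fin M × Fin μ → Half n l //
      (Nat.card {c : Fin M × Fin μ // c.1 ∈ A ∧ Violates (D c) y} : ℝ) <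
        (1 - ε / 2) * (A.card * μ) / 2 ^ l} = Bx.card := by
    rw [Nat.card_eq_fintype_card, Fintype.card_subtype]
  have h19 : (2 : ℝ) ^ (3 * t + 1) * Real.exp (-4 * t) ≤ 1 := by
    have h21 : Real.exp (-4 * (t : ℝ)) = (Real.exp (-4)) ^ t := by
      rw [← Real.exp_nat_mul]
      congr 1
      ring
    have h22 : Real.exp (-4) ≤ 1 / 16 := by
      rw [Real.exp_neg, one_div]
      apply inv_anti₀ (by norm_num)
      have := Real.exp_one_gt_d9
      have h23 : Real.exp 4 = (Real.exp 1 * Real.exp 1) * (Real.exp 1 * Real.exp 1) := by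
        rw [← Real.exp_add, ← Real.exp_add]
        norm_num
      have h24 : (4 : ℝ) ≤ Real.exp 1 * Real.exp 1 := by nlinarith
      rw [h23]
      nlinarith
    have h24 : Real.exp (-4) ^ t ≤ (1 / 16) ^ t :=
      pow_le_pow_left₀ (Real.exp_pos _).le h22 t
    have h25 : (1 / 2 : ℝ) ^ t ≤ 1 / 2 := by
      calc (1 / 2 : ℝ) ^ t ≤ (1 / 2) ^ 1 :=
            pow_le_pow_of_le_one (by norm_num) (by norm_num) ht
        _ = 1 / 2 := pow_one _
    rw [h21]
    calc (2 : ℝ) ^ (3 * t + 1) * Real.exp (-4) ^ t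
        ≤ 2 ^ (3 * t + 1) * (1 / 16) ^ t := mul_le_mul_of_nonneg_left h24 (by positivity)
      _ = 2 * (1 / 2) ^ t := by
          rw [pow_succ, pow_mul]
          have : ((2 : ℝ) ^ 3) ^ t * (1 / 16) ^ t = (1 / 2) ^ t := by
            rw [← mul_pow]
            norm_num
          rw [← this]
          ring
      _ ≤ 1 := by linarith
  rw [hcard]
  have h30 : (2 : ℝ) ^ (3 * t + 1) * (Bx.card : ℝ) ≤ N := by
    calc (2 : ℝ) ^ (3 * t + 1) * (Bx.card : ℝ)
        ≤ 2 ^ (3 * t + 1) * (N * Real.exp (-4 * t)) :=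
          mul_le_mul_of_nonneg_left hBx (by positivity)
      _ = (2 ^ (3 * t + 1) * Real.exp (-4 * t)) * N := by ring
      _ ≤ 1 * N := mul_le_mul_of_nonneg_right h19 hN0
      _ = N := one_mul N
  rw [hN] at h30
  exact_mod_cast h30

end Pool.Agent.H95.BOP
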